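import Pool.Agent.W544.PG.Defs3
import Pool.Agent.W417.K3.FftB
import Pool.Agent.W565.K3.Ext

/-!
# PG-HCT, FFT
-/

open Matrix Finset Module

set_option linter.unusedSimpArgs false

namespace Pool.Agent.W74.PG

open Pool.Agent.W544.PG

noncomputable section

/-! ### FFT -/

theorem sum_swap {ι : Type} [Fintype ι] [DecidableEq ι] {k : ℕ} (j : Fin k)
    (F : (Fin k → ι) → ι → ℝ) :
    ∑ I, ∑ b, F I b = ∑ J : Fin k → ι, ∑ l, F (Function.update J j l) (J j) := by
  rw [← Fintype.sum_prod_type', ← Fintype.sum_prod_type']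
  refine Finset.sum_bij' (fun p _ => (Function.update p.1 j p.2, p.1 j))
    (fun p _ => (Function.update p.1 j p.2, p.1 j)) ?_ ?_ ?_ ?_ ?_
  · intro p _
    exact Finset.mem_univ _
  · intro p _
    exact Finset.mem_univ _
  · intro p _
    simp
  · intro p _
    simp
  · intro p _
    simp

theorem formR_up {n k : ℕ} (t : (Fin k → Fin n) → ℚ) (v : Fin k → Fin n → ℝ)
    (Y : Matrix (Fin n) (Fin n) ℝ) (j : Fin k) :
    Pool.Agent.W544.K3.formR t (Function.update v j (Y *ᵥ v j)) =
      ∑ J : Fin k → Fin n, (∑ l, Y l (J j) * (t (Function.update J j l) : ℝ)) * ∏ i, v i (J i) := by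
  rw [Pool.Agent.W544.K3.formR_apply]
  have h1 : ∀ I : Fin k → Fin n, (t I : ℝ) * ∏ i, (Function.update v j (Y *ᵥ v j)) i (I i) =
      ∑ b, (t I : ℝ) * (Y (I j) b * v j b) * ∏ i ∈ univ.erase j, v i (I i) := by
    intro I
    rw [← Finset.mul_prod_erase _ _ (Finset.mem_univ j), Function.update_self]
    have h2 : ∏ i ∈ univ.erase j, (Function.update v j (Y *ᵥ v j)) i (I i) =
        ∏ i ∈ univ.erase j, v i (I i) := by
      refine Finset.prod_congr rfl fun i hi => ?_
      rw [Function.update_of_ne (Finset.ne_of_mem_erase hi)]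
    rw [h2, ← Finset.sum_mul, ← Finset.mul_sum]
    simp only [Matrix.mulVec, dotProduct]
    ring
  simp only [h1]
  rw [sum_swap j]
  refine Finset.sum_congr rfl fun J _ => ?_
  rw [Finset.sum_mul]
  refine Finset.sum_congr rfl fun l _ => ?_
  rw [← Finset.mul_prod_erase _ (fun i => v i (J i)) (Finset.mem_univ j), Function.update_self]
  have h2 : ∏ i ∈ univ.erase j, v i ((Function.update J j l) i) =
      ∏ i ∈ univ.erase j, v i (J i) := by
    refine Finset.prod_congr rfl fun i hi => ?_
    rw [Function.update_of_ne (Finset.ne_of_mem_erase hi)]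
  rw [h2]
  ring

theorem kills {n k : ℕ} (t : (Fin k → Fin n) → ℚ) (y : End ℝ (Fin n → ℝ))
    (h : Kil ((LinearMap.toMatrix' y).map (fun r : ℝ => (r : ℂ))) t) :
    Pool.Agent.W544.K3.Kills y (Pool.Agent.W544.K3.formR t) := by
  intro v
  have h1 : ∀ j, y (v j) = (LinearMap.toMatrix' y) *ᵥ v j := fun j =>
    (LinearMap.toMatrix'_mulVec y (v j)).symm
  simp only [h1, formR_up]
  rw [Finset.sum_comm]
  refine Finset.sum_eq_zero fun J _ => ?_
  rw [← Finset.sum_mul]
  have h2 := h J
  have h3 : ((∑ j, ∑ l, (LinearMap.toMatrix' y) l (J j) *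
      (t (Function.update J j l) : ℝ) : ℝ) : ℂ) = 0 := by
    push_cast
    exact h2
  have h4 := Complex.ofReal_eq_zero.1 h3
  rw [h4, zero_mul]

theorem skewC {n : ℕ} (Q : Matrix (Fin n) (Fin n) ℚ) (y : End ℝ (Fin n → ℝ))
    (h : Pool.Agent.W544.K3.Skew (Pool.Agent.W544.K3.bilR Q) y) :
    ((LinearMap.toMatrix' y).map (fun r : ℝ => (r : ℂ)))ᵀ * mC Q +
      mC Q * ((LinearMap.toMatrix' y).map (fun r : ℝ => (r : ℂ))) = 0 := by
  have h1 : ∀ i j, (∑ a, (LinearMap.toMatrix' y) a i * (Q a j : ℝ)) +
      ∑ a, (Q i a : ℝ) * (LinearMap.toMatrix' y) a j = 0 := by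
    intro i j
    have h2 := h (Pi.single i 1) (Pi.single j 1)
    rw [Pool.Agent.W544.K3.bilR_apply, Pool.Agent.W544.K3.bilR_apply] at h2
    have e1 : ∀ a b, (LinearMap.toMatrix' y) a b = y (Pi.single b 1) a := by
      intro a b
      rw [LinearMap.toMatrix'_apply]
    have e2 : ∀ (f : Fin n → ℝ) (c : Fin n), ∑ b, f b * (Pi.single c (1 : ℝ) : Fin n → ℝ) b = f c := by
      intro f c
      simp [Pi.single_apply]
    have e3 : (∑ a, ∑ b, y (Pi.single i 1) a * (Q a b : ℝ) * (Pi.single j (1 : ℝ) : Fin n → ℝ) b) =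
        ∑ a, y (Pi.single i 1) a * (Q a j : ℝ) :=
      Finset.sum_congr rfl fun a _ => e2 (fun b => y (Pi.single i 1) a * (Q a b : ℝ)) j
    have e4 : (∑ a, ∑ b, (Pi.single i (1 : ℝ) : Fin n → ℝ) a * (Q a b : ℝ) * y (Pi.single j 1) b) =
        ∑ b, (Q i b : ℝ) * y (Pi.single j 1) b := by
      rw [Finset.sum_comm]
      refine Finset.sum_congr rfl fun b _ => ?_
      rw [← e2 (fun a => (Q a b : ℝ) * y (Pi.single j 1) b) i]
      refine Finset.sum_congr rfl fun a _ => ?_
      ring
    rw [e3, e4] at h2
    simp only [e1]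
    exact h2
  ext i j
  have h2 := h1 i j
  have h3 := congrArg (fun r : ℝ => (r : ℂ)) h2
  simp only [Complex.ofReal_zero] at h3
  push_cast at h3
  simp only [Matrix.add_apply, Matrix.mul_apply, Matrix.transpose_apply, Matrix.map_apply, mC,
    Matrix.zero_apply]
  exact h3

theorem det_ne {n : ℕ} (T : HS n) : T.Q.det ≠ 0 := by
  intro h0
  obtain ⟨v, hv, hv0⟩ := Matrix.exists_mulVec_eq_zero_iff.2 h0
  set C : Matrix (Fin n) (Fin n) ℂ := (2 : ℂ) • (T.x * T.x) - 1 with hC
  have hCC : C * C = 1 := by
    have h1 : T.x * T.x * (T.x * T.x) = T.x * T.x := by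
      rw [← mul_assoc, T.cube]
    rw [hC, sub_mul, mul_sub, mul_sub, smul_mul_smul_comm, h1, one_mul, mul_one, one_mul]
    rw [show (2 : ℂ) * 2 = 2 + 2 by norm_num, add_smul]
    abel
  set vC : Fin n → ℂ := fun i => (v i : ℂ) with hvC
  have h1 : mC T.Q *ᵥ vC = 0 := by
    funext i
    have h2 : ∑ j, T.Q i j * v j = 0 := congrFun hv0 i
    have h3 : ((∑ j, T.Q i j * v j : ℚ) : ℂ) = 0 := by rw [h2, Rat.cast_zero]
    push_cast at h3
    exact h3
  have h2 : vC ≠ 0 := by
    intro h
    apply hv
    funext i
    have h3 := congrFun h i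
    simp only [hvC, Pi.zero_apply, Rat.cast_eq_zero] at h3
    exact h3
  have h3 : C *ᵥ vC ≠ 0 := by
    intro h
    apply h2
    have h4 := congrArg (fun w => C *ᵥ w) h
    simp only [Matrix.mulVec_mulVec, hCC, Matrix.one_mulVec, Matrix.mulVec_zero] at h4
    exact h4
  have h4 := T.pos _ h3
  rw [← hC, Matrix.mulVec_mulVec, mul_assoc, hCC, mul_one, h1, dotProduct_zero] at h4
  simp at h4

theorem fftT : S_fftT := by
  intro n k T hk t ht
  have hfft : Pool.Agent.W544.K3.S_fft := Pool.Agent.W417.K3.Fft.fft
  have hs : ∀ i j, T.Q i j = T.Q j i := fun i j => by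
    have := congrFun (congrFun T.symm j) i
    rw [Matrix.transpose_apply] at this
    exact this
  exact hfft n k hk T.Q hs (det_ne T) t fun y hy => kills t y (ht _ (skewC T.Q y hy))

/-! ### HCT -/

open Pool.Agent.W565.K3.Ext

variable {n s m : ℕ}

/-- evaluation at a vector supported on a pattern -/
theorem evG_slice (t : (Fin m → Fin s ⊕ Fin n) → ℚ) (q : Fin m → Option (Fin s))
    (v : Fin (A q).card → Fin n → ℂ) (V : Fin m → Fin s ⊕ Fin n → ℂ)
    (hV : ∀ i, V (ee q i) = Sum.elim (fun _ => 0) (v i))
    (hV' : ∀ j a, q j = some a → V j = Pi.single (Sum.inl a) 1) :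
    evG t V = ev (fun K => t (mk q K)) v := by
  unfold evG ev
  rw [Pool.Agent.W565.K3.Ext.sum_mk, Finset.sum_eq_single q]
  · refine Finset.sum_congr rfl fun K _ => ?_
    congr 1
    rw [prod_split q, Finset.prod_eq_one, one_mul]
    · refine Finset.prod_congr rfl fun i _ => ?_
      rw [mk_ee, hV]
      rfl
    · intro j hj
      rw [Finset.mem_filter] at hj
      obtain ⟨a, ha⟩ := Option.ne_none_iff_exists'.1 hj.2
      rw [mk_some K ha, hV' j a ha]
      simp
  · intro q' _ hq'
    refine Finset.sum_eq_zero fun K _ => ?_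
    have : ∃ j, q' j ≠ q j := by
      by_contra hcon
      push Not at hcon
      exact hq' (funext hcon)
    obtain ⟨j, hj⟩ := this
    rw [Finset.prod_eq_zero (Finset.mem_univ j), mul_zero]
    cases h2 : q j with
    | some b =>
      rw [hV' j b h2]
      cases h1 : q' j with
      | some a =>
        rw [mk_some K h1]
        have hab : a ≠ b := by
          intro hab
          apply hj
          rw [h1, h2, hab]
        rw [Pi.single_apply, if_neg]
        intro h
        exact hab (Sum.inl_injective h)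
      | none =>
        rw [mk_none K h1, Pi.single_apply, if_neg]
        simp
    | none =>
      obtain ⟨i, rfl⟩ := exists_ee h2
      rw [hV i]
      cases h1 : q' (ee q i) with
      | some a =>
        rw [mk_some K h1]
        rfl
      | none =>
        exact absurd (h1.trans h2.symm) hj
  · intro h0
    exact absurd (Finset.mem_univ _) h0

theorem xS_inr (T : HS n) (v : Fin n → ℂ) (a : ℂ) (h : T.x *ᵥ v = a • v) :
    T.xS s *ᵥ (Sum.elim (fun _ => 0) v : Fin s ⊕ Fin n → ℂ) =
      a • (Sum.elim (fun _ => 0) v : Fin s ⊕ Fin n → ℂ) := by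
  unfold HS.xS
  rw [Matrix.fromBlocks_mulVec]
  funext i
  cases i with
  | inl i => simp
  | inr i =>
    have h1 := congrFun h i
    have h2 : ((Sum.elim (fun _ => 0) v : Fin s ⊕ Fin n → ℂ) ∘ Sum.inr) = v := rfl
    simp only [h2, Sum.elim_inr, Matrix.zero_mulVec, zero_add, Pi.smul_apply] at h1 ⊢
    exact h1

theorem xS_inl (T : HS n) (a : Fin s) :
    T.xS s *ᵥ (Pi.single (Sum.inl a) 1 : Fin s ⊕ Fin n → ℂ) =
      (0 : ℂ) • (Pi.single (Sum.inl a) 1 : Fin s ⊕ Fin n → ℂ) := by
  rw [zero_smul]
  funext i
  rw [Matrix.mulVec_single_one]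
  unfold HS.xS
  cases i with
  | inl i => simp [Matrix.col_apply]
  | inr i => simp [Matrix.col_apply]

theorem hodge_slice (T : HS n) (t : (Fin m → Fin s ⊕ Fin n) → ℚ) (ht : T.IsHodgeS t)
    (q : Fin m → Option (Fin s)) : T.IsHodge (fun K => t (mk q K)) := by
  intro v a hv ha
  have hex : ∀ j : Fin m, ∃ (w : Fin s ⊕ Fin n → ℂ) (c : ℤ), T.xS s *ᵥ w = (c : ℂ) • w ∧
      (∀ i, (ee q i : Fin m) = j → w = Sum.elim (fun _ => 0) (v i) ∧ c = a i) ∧
      (∀ b, q j = some b → w = Pi.single (Sum.inl b) 1 ∧ c = 0) := by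
    intro j
    cases hj : q j with
    | some b =>
      refine ⟨Pi.single (Sum.inl b) 1, 0, ?_, ?_, ?_⟩
      · rw [Int.cast_zero]
        exact xS_inl T b
      · intro i hi
        have h1 := q_ee (q := q) i
        rw [hi, hj] at h1
        exact absurd h1 (by simp)
      · intro b' hb'
        rw [Option.some.injEq] at hb'
        rw [hb']
        exact ⟨rfl, rfl⟩
    | none =>
      obtain ⟨i, hi⟩ := exists_ee hj
      refine ⟨Sum.elim (fun _ => 0) (v i), a i, xS_inr T _ _ (hv i), ?_, ?_⟩
      · intro i' hi'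
        have h1 : i' = i := (ee q).injective (Subtype.ext (hi'.trans hi.symm))
        rw [h1]
        exact ⟨rfl, rfl⟩
      · intro b hb
        exact absurd hb (by simp)
  choose V c hVc h1 h2 using hex
  have h3 := ht V c hVc (by
    rw [sum_split q, Finset.sum_eq_zero, zero_add]
    · have : ∑ i, c (ee q i) = ∑ i, a i :=
        Finset.sum_congr rfl fun i _ => (h1 (ee q i) i rfl).2
      rw [this]
      exact ha
    · intro j hj
      rw [Finset.mem_filter] at hj
      obtain ⟨b, hb⟩ := Option.ne_none_iff_exists'.1 hj.2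
      exact (h2 j b hb).2)
  rw [← h3]
  exact (evG_slice t q v V (fun i => (h1 (ee q i) i rfl).1) (fun j b hb => (h2 j b hb).1)).symm

theorem alg_gen (T : HS n) (q : Fin m → Option (Fin s))
    (σ : Fin (A q).card → Fin (A q).card) (h1 : ∀ j, σ (σ j) = j) (h2 : ∀ j, σ j ≠ j)
    (t : (Fin (A q).card → Fin n) → ℚ)
    (ht : ∀ I, t I = ∏ j with j < σ j, T.Q (I j) (I (σ j))) :
    Φ q t ∈ T.alg s m := by
  apply Submodule.subset_span
  refine ⟨sg q σ, fun j a => if q j = some a then 1 else 0, ?_, ?_⟩
  · intro j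
    cases hj : q j with
    | none =>
      obtain ⟨i, rfl⟩ := exists_ee hj
      rw [sg_ee, sg_ee, h1]
    | some a =>
      have h := sg_some σ (j := j) (by rw [hj]; simp)
      rw [h, h]
  · intro I
    by_cases hI : pat I = q
    · obtain ⟨K, rfl⟩ := exists_mk I hI
      rw [Φ_mk, ht]
      have p1 : ∏ j with sg q σ j = j, Sum.elim (fun a => if q j = some a then (1 : ℚ) else 0)
          (fun _ => 0) (mk q K j) = 1 := by
        refine Finset.prod_eq_one fun j hj => ?_
        rw [Finset.mem_filter] at hj
        cases hq : q j with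
        | none =>
          obtain ⟨i, rfl⟩ := exists_ee hq
          have := hj.2
          rw [sg_ee] at this
          exact absurd ((ee q).injective (Subtype.ext this)) (h2 i)
        | some a =>
          rw [mk_some K hq]
          simp
      rw [p1, one_mul]
      -- the product over pairs
      refine Finset.prod_nbij (fun i => (ee q i : Fin m)) ?_ ?_ ?_ ?_
      · intro i hi
        rw [Finset.mem_filter] at hi ⊢
        refine ⟨Finset.mem_univ _, ?_⟩
        rw [sg_ee]
        exact (ee q).lt_iff_lt.2 hi.2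
      · intro i _ i' _ h
        exact (ee q).injective (Subtype.ext h)
      · intro j hj
        rw [Finset.mem_coe, Finset.mem_filter] at hj
        cases hq : q j with
        | none =>
          obtain ⟨i, rfl⟩ := exists_ee hq
          refine ⟨i, ?_, rfl⟩
          rw [Finset.mem_coe, Finset.mem_filter]
          refine ⟨Finset.mem_univ _, ?_⟩
          have := hj.2
          rw [sg_ee] at this
          exact (ee q).lt_iff_lt.1 this
        | some a =>
          have := hj.2
          rw [sg_some σ (by rw [hq]; simp)] at this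
          exact absurd this (lt_irrefl _)
      · intro i _
        rw [sg_ee, mk_ee, mk_ee]
        rfl
    · rw [Φ_zero q t I hI]
      have : ∃ j, pat I j ≠ q j := by
        by_contra hcon
        push Not at hcon
        exact hI (funext hcon)
      obtain ⟨j, hj⟩ := this
      symm
      cases hq : q j with
      | some a =>
        apply mul_eq_zero_of_left
        have hfix : sg q σ j = j := sg_some σ (by rw [hq]; simp)
        apply Finset.prod_eq_zero (i := j) (by
          rw [Finset.mem_filter]
          exact ⟨Finset.mem_univ j, hfix⟩)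
        rw [hq] at hj
        cases hIj : I j with
        | inl b =>
          unfold pat at hj
          rw [hIj] at hj
          simp only [Sum.elim_inl, ne_eq, Option.some.injEq] at hj
          simp only [Sum.elim_inl, hq, Option.some.injEq]
          rw [if_neg (fun h => hj h.symm)]
        | inr b => rfl
      | none =>
        obtain ⟨i, rfl⟩ := exists_ee hq
        have hb : ∃ b, I (ee q i) = Sum.inl b := by
          unfold pat at hj
          rw [hq] at hj
          cases hIj : I (ee q i) with
          | inl b => exact ⟨b, rfl⟩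
          | inr b => rw [hIj] at hj; simp at hj
        obtain ⟨b, hb⟩ := hb
        apply mul_eq_zero_of_right
        rcases lt_or_gt_of_ne (h2 i) with h3 | h3
        · -- σ i < i
          apply Finset.prod_eq_zero (i := (ee q (σ i) : Fin m))
          · rw [Finset.mem_filter]
            refine ⟨Finset.mem_univ _, ?_⟩
            rw [sg_ee, h1]
            exact (ee q).lt_iff_lt.2 h3
          · rw [sg_ee, h1, hb]
            cases I (ee q (σ i)) with
            | inl c => rfl
            | inr c => rfl
        · apply Finset.prod_eq_zero (i := (ee q i : Fin m))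
          · rw [Finset.mem_filter]
            refine ⟨Finset.mem_univ _, ?_⟩
            rw [sg_ee]
            exact (ee q).lt_iff_lt.2 h3
          · rw [sg_ee, hb]
            cases I (ee q (σ i)) with
            | inl c => rfl
            | inr c => rfl

theorem hct : S_hct := by
  intro n s T H m t ht hs
  rw [t_eq t]
  refine Submodule.sum_mem _ fun q _ => ?_
  by_cases hk : (A q).card < n
  · have h1 := H _ hk _ (hodge_slice T t ht q)
    refine Submodule.span_induction (p := fun u _ => Φ q u ∈ T.alg s m) ?_ ?_ ?_ ?_ h1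
    · rintro u ⟨σ, h2, h3, h4⟩
      exact alg_gen T q σ h2 h3 u h4
    · rw [map_zero]
      exact Submodule.zero_mem _
    · intro u u' _ _ h2 h3
      rw [map_add]
      exact Submodule.add_mem _ h2 h3
    · intro c u _ h2
      rw [map_smul]
      exact Submodule.smul_mem _ _ h2
  · have h0 : (fun K => t (mk q K)) = (0 : (Fin (A q).card → Fin n) → ℚ) := by
      funext K
      by_contra hne
      have := hs _ hne
      rw [card_right] at this
      exact hk this
    rw [h0, map_zero]
    exact Submodule.zero_mem _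

end

end Pool.Agent.W74.PG
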